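import Pool.Agent.H15.G.R_seed8.TH366.RC.Moves
import Pool.Agent.H15.G.R_seed8.TH102.DP.Tube

/-! One more square, of any side, in a triangle with a suitable real slope. -/

set_option autoImplicit false

namespace Pool.Agent.TH366.RC

open Finset Pool.Agent.TH176.Nag

variable {ι : Type} {w : ι → ℕ} {E : ℝ}

/-- the nodal lemma for one slope `μ ≤ 1` -/
theorem T.node {ρ μ : ℝ} (hE : 0 < E) (hρ : 3 ≤ 2 * ρ) (hμ0 : 0 < μ) (hμ1 : μ ≤ 1)
    (h1 : T w E μ (4 * ρ - μ)) : T w E 0 ρ := by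
  have hρ0 : 0 < ρ := by linarith
  apply T.of_std
  have hs : 0 < √ρ := Real.sqrt_pos.2 hρ0
  have h2 := Emp_nodal (w := w) (δ := ρ) (e := E * √ρ) hρ (by positivity) (a := μ / (4 * ρ))
    (b := (4 * ρ - μ) / (4 * ρ)) (by positivity) (div_pos (by linarith) (by positivity))
    (by field_simp; ring) (by
      rw [Ne, div_left_inj' (by positivity)]
      intro h0
      linarith) (by
      have h3 := h1 (-(2 * (μ / (4 * ρ)) * (E * √ρ)))
      have e : μ + (4 * ρ - μ) = 4 * ρ := by ring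
      have e4 : √(4 * ρ) = 2 * √ρ := by
        rw [Real.sqrt_mul (by norm_num)]
        have : √(4 : ℝ) = 2 := by
          rw [show (4 : ℝ) = 2 ^ 2 by norm_num]
          exact Real.sqrt_sq (by norm_num)
        rw [this]
      rw [e, e4] at h3
      have e5 : -(2 * (μ / (4 * ρ)) * (E * √ρ)) + E * (2 * √ρ) =
          2 * ((4 * ρ - μ) / (4 * ρ)) * (E * √ρ) := by
        field_simp
        ring
      have e6 : 4 * ρ * (μ / (4 * ρ)) = μ := by field_simp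
      have e7 : 4 * ρ * ((4 * ρ - μ) / (4 * ρ)) = 4 * ρ - μ := by field_simp
      rw [e6, e7, ← e5]
      exact h3)
  exact h2

/-- one more point in a triangle with left slope `μ` -/
theorem T.corner {v : ℕ} {E' μ ν : ℝ} (hμ0 : 0 < μ) (hμ1 : μ ≤ 1) (hν : 0 ≤ ν)
    (hσ : 0 < μ + ν - μ ^ 2)
    (hv : E * √(μ + ν) - μ * v ≤ E' * √(μ + ν - μ ^ 2))
    (h : T w E' 0 (μ + ν - μ ^ 2)) : T (fun o : Option ι => o.elim v w) E μ ν := by
  refine T.shear (-1) ?_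
  push_cast
  intro α
  have hpos : 0 < μ + -1 + (ν - -1) := by linarith
  have e0 : μ + -1 + (ν - -1) = μ + ν := by ring
  obtain ⟨β, hβ⟩ : ∃ β, β = α + E * √(μ + -1 + (ν - -1)) := ⟨_, rfl⟩
  rw [← hβ]
  rw [e0] at hβ
  -- the flattened triangle
  have h1 : T w E' (μ * (1 - μ)) ν := by
    have e : μ * (1 - μ) + ν = μ + ν - μ ^ 2 := by ring
    apply T.toRT
    · rw [e]; exact hσ
    · rw [e]; exact h
  have h2 := h1 (α + μ * v)
  have e : μ * (1 - μ) + ν = μ + ν - μ ^ 2 := by ring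
  rw [e] at h2
  have h3 : Emp w (Reg (α + μ * v) β (μ * (1 - μ)) ν) := by
    refine h2.mono ?_
    rintro m ⟨k1, k2, k3⟩
    refine ⟨k1, k2, k3.trans ?_⟩
    rw [hβ]
    linarith
  have h4 : Emp w (Pool.Agent.TH102.DP.Quad α v β (μ + -1) (ν - -1) 1) := by
    refine Pool.Agent.TH102.DP.flat_II (a := 1) (k := 1) (α' := α + μ * v) (β' := β)
      (μ' := μ * (1 - μ)) (ν' := ν) one_pos ?_ ?_ ?_ ?_ ?_ ?_ ?_ h3
    · push_cast; linarith
    · push_cast; linarith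
    · push_cast; linarith
    · push_cast; ring
    · push_cast; ring
    · push_cast; ring
    · push_cast; ring
  have hfin := Pool.Agent.TH102.DP.Reg_finite (α := α) (β := β) hpos
  refine Pool.Agent.TH102.DP.Emp_absorb v hfin (fun m hm => hm.1)
    (fun j => ⌈α + (μ + -1) * (j : ℝ)⌉) (fun m hm => Int.ceil_le.2 hm.2.1) ?_ h4
  rintro ⟨p, q⟩ ⟨k1, k2, k3⟩ k5
  simp only at k1 k2 k3 k5
  have c1 := Int.le_ceil (α + (μ + -1) * (q : ℝ))
  have c4 : (v : ℝ) ≤ (q : ℝ) + ((p : ℝ) - ((⌈α + (μ + -1) * (q : ℝ)⌉ : ℤ) : ℝ)) := by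
    exact_mod_cast k5
  refine ⟨k1, k2, ?_, k3⟩
  simp only
  push_cast
  linarith

/-- a group of points in a triangle with left slope `μ` -/
theorem T.cornerK {k : ℕ} (hk : 1 ≤ k) (v : Fin k → ℕ) {E' μ ν : ℝ} (hμ0 : 0 < μ) (hμ1 : μ ≤ k)
    (hν : 0 ≤ ν) (hσ : 0 < μ + ν - μ ^ 2 / k)
    (hv : E * √(μ + ν) - μ * ((∑ i, (v i : ℝ)) / k) ≤ E' * √(μ + ν - μ ^ 2 / k))
    (h : T w E' 0 (μ + ν - μ ^ 2 / k)) : T (Sum.elim v w) E μ ν := by
  have hk0 : (0 : ℝ) < k := by exact_mod_cast hk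
  refine T.shear (-1) ?_
  push_cast
  intro α
  have hpos : 0 < μ + -1 + (ν - -1) := by linarith
  have e0 : μ + -1 + (ν - -1) = μ + ν := by ring
  obtain ⟨β, hβ⟩ : ∃ β, β = α + E * √(μ + -1 + (ν - -1)) := ⟨_, rfl⟩
  rw [← hβ]
  rw [e0] at hβ
  obtain ⟨V, hV⟩ : ∃ V : ℝ, V = ∑ i, (v i : ℝ) := ⟨_, rfl⟩
  rw [← hV] at hv
  have e : μ * (k - μ) / k + ν = μ + ν - μ ^ 2 / k := by
    field_simp
    ring
  -- the flattened triangle
  have h1 : T w E' (μ * (k - μ) / k) ν := by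
    apply T.toRT
    · rw [e]; exact hσ
    · rw [e]; exact h
  have h2 := h1 (α + μ * (V / k))
  rw [e] at h2
  have h3 : Emp w (Reg (α + μ * (V / k)) β (μ * (k - μ) / k) ν) := by
    refine h2.mono ?_
    rintro m ⟨k1, k2, k3⟩
    refine ⟨k1, k2, k3.trans ?_⟩
    rw [hβ]
    linarith
  have h4 : Emp w (Pool.Agent.TH102.DP.Quad α V β (μ + -1) (ν - -1) k) := by
    refine Pool.Agent.TH102.DP.flat_II (a := 1) (k := k) (α' := α + μ * (V / k)) (β' := β)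
      (μ' := μ * (k - μ) / k) (ν' := ν) hk ?_ ?_ ?_ ?_ ?_ ?_ ?_ h3
    · push_cast; linarith
    · push_cast; linarith
    · push_cast; linarith
    · push_cast; field_simp; ring
    · push_cast; ring
    · push_cast; field_simp; ring
    · push_cast; ring
  have hfin := Pool.Agent.TH102.DP.Reg_finite (α := α) (β := β) hpos
  refine Pool.Agent.TH102.DP.Emp_absorbs h4 k v _ hfin (fun m hm => hm.1)
    (fun j => ⌈α + (μ + -1) * (j : ℝ)⌉) (fun m hm => Int.ceil_le.2 hm.2.1) ?_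
  rintro ⟨p, q⟩ ⟨k1, k2, k3⟩ k5
  simp only at k1 k2 k3 k5
  have c1 := Int.le_ceil (α + (μ + -1) * (q : ℝ))
  have c3 := Pool.Agent.TH102.DP.sum_max_le v q
  have c4 : ((⌈α + (μ + -1) * (q : ℝ)⌉ : ℤ) : ℝ) +
      ((∑ i, max 0 ((v i : ℤ) - q) : ℤ) : ℝ) ≤ p := by exact_mod_cast k5
  refine ⟨k1, k2, ?_, k3⟩
  simp only
  rw [hV]
  linarith

/-- the nodal lemma for one slope -/
theorem T.nodeZ {ρ μ : ℝ} (hE : 0 < E) (hρ : 3 ≤ 2 * ρ) (h1 : T w E μ (4 * ρ - μ)) :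
    T w E 0 ρ := by
  obtain ⟨j, hj⟩ : ∃ j : ℤ, j = ⌈μ⌉ - 1 := ⟨_, rfl⟩
  have hj1 : (j : ℝ) < μ := by
    rw [hj]; push_cast
    linarith [Int.ceil_lt_add_one μ]
  have hj2 : μ ≤ j + 1 := by
    rw [hj]; push_cast
    linarith [Int.le_ceil μ]
  refine T.node (μ := μ - j) hE hρ (by linarith) (by linarith) ?_
  refine T.shear j ?_
  have e1 : μ - j + j = μ := by ring
  have e2 : 4 * ρ - (μ - j) - j = 4 * ρ - μ := by ring
  rw [e1, e2]
  exact h1

end Pool.Agent.TH366.RC
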