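import Pool.Agent.H15.G.R_seed8.TH793.NG.Key
import Pool.Agent.H15.G.R_seed8.TH366.RC.Dec

/-! The degeneration of the weighted planes with a REAL weight `δ ≥ 3 / 2` to triangles with
arbitrary real slopes (after `TH793.NG.Key`). -/

set_option autoImplicit false

namespace Pool.Agent.TH366.RC

open Pool.Agent.TH603.EL Pool.Agent.TH603.EL.Scal2 Pool.Agent.TH176.Nag
open Pool.Agent.TH793.NG (PXY pf pf_ne UU UU_zero UU_one UU_two ev_hom xx yy evp_xx evp_yy EV hh)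

theorem pf_good {F : Type} [Field F] {δ e : ℝ} (hδ : 3 ≤ 2 * δ) {f : (ℤ × ℤ) →₀ HK F}
    (hf : ∀ m ∈ f.support, 0 ≤ m.1 ∧ 0 ≤ m.2 ∧ (m.1 : ℝ) + δ * m.2 ≤ e) : Good δ e (pf f) := by
  unfold pf
  apply Good.sum
  intro m hm
  obtain ⟨h1, h2, h3⟩ := hf m hm
  apply Good.mono_pow hδ
  right
  have h4 := Polynomial.natDegree_C_mul_X_pow_le (f m) m.1.toNat
  have h5 : (m.1.toNat : ℤ) = m.1 := Int.toNat_of_nonneg h1
  have h6 : (m.2.toNat : ℤ) = m.2 := Int.toNat_of_nonneg h2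
  have h5' : ((m.1.toNat : ℕ) : ℝ) = (m.1 : ℝ) := by exact_mod_cast congrArg (Int.cast : ℤ → ℝ) h5
  have h6' : ((m.2.toNat : ℕ) : ℝ) = (m.2 : ℝ) := by exact_mod_cast congrArg (Int.cast : ℤ → ℝ) h6
  rw [h6']
  have h7 : ((Polynomial.C (f m) * Polynomial.X ^ m.1.toNat : Polynomial (HK F)).natDegree : ℝ) ≤
      m.1 := by
    rw [← h5']; exact_mod_cast h4
  linarith

/-- emptiness on the triangle of real slopes gives emptiness in the weighted plane -/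
theorem Emp_nodal {ι : Type} {w : ι → ℕ} {δ e : ℝ} (hδ : 3 ≤ 2 * δ) (he : 0 ≤ e) {a b : ℝ}
    (ha : 0 < a) (hb : 0 < b) (hab : a + b = 1) (hne : a ≠ b)
    (h : Emp w (Reg (-(2 * a * e)) (2 * b * e) (4 * δ * a) (4 * δ * b))) :
    Emp w {m : ℤ × ℤ | 0 ≤ m.1 ∧ 0 ≤ m.2 ∧ (m.1 : ℝ) + δ * m.2 ≤ e} := by
  obtain ⟨F, _, _, x, y, hx, hy, hE⟩ := h
  obtain ⟨s, hs⟩ : ∃ s : ℝ, s = 2 * e + 1 := ⟨_, rfl⟩
  have hs0 : 0 < s := by rw [hs]; linarith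
  have hse : 2 * e < s := by rw [hs]; linarith
  have hchar : CharZero (HK F) :=
    charZero_of_injective_ringHom (f := (HahnSeries.C : F →+* HK F)) HahnSeries.C_injective
  have hU : ∀ i l, evp (hx i) (hy i) (UU (xx F a b s) (yy F a b s) l) ≠ 0 := by
    intro i l
    unfold UU
    split_ifs
    · rw [map_one]; exact one_ne_zero
    · exact evp_xx (hx i) (hy i) hs0 hne
    · exact evp_yy (hx i) (hy i) ha hb hs0 hne
  refine ⟨HK F, inferInstance, hchar,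
    fun i => evp (hx i) (hy i) (UU (xx F a b s) (yy F a b s) 1) /
      evp (hx i) (hy i) (UU (xx F a b s) (yy F a b s) 0),
    fun i => evp (hx i) (hy i) (UU (xx F a b s) (yy F a b s) 2) /
      evp (hx i) (hy i) (UU (xx F a b s) (yy F a b s) 0),
    fun i => div_ne_zero (hU i 1) (hU i 0), fun i => div_ne_zero (hU i 2) (hU i 0), ?_⟩
  intro f hf hLM
  by_contra hne0
  have hf0 : ∀ m ∈ f.support, 0 ≤ m.1 ∧ 0 ≤ m.2 ∧ (m.1 : ℝ) + δ * m.2 ≤ e := fun m hm => hf hm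
  obtain ⟨d, hd⟩ : ∃ d : ℕ, d = ⌊e⌋₊ := ⟨_, rfl⟩
  have hf1 : ∀ m ∈ f.support, 0 ≤ m.1 ∧ 0 ≤ m.2 ∧ m.1 + m.2 ≤ (d : ℤ) := by
    intro m hm
    obtain ⟨h1, h2, h3⟩ := hf0 m hm
    refine ⟨h1, h2, ?_⟩
    have h4 : (0 : ℝ) ≤ (m.2 : ℝ) := by exact_mod_cast h2
    have h5 : ((m.1 + m.2 : ℤ) : ℝ) ≤ e := by
      push_cast
      nlinarith
    have h6 : m.1 + m.2 ≤ ⌊e⌋ := Int.le_floor.2 h5
    have h7 : ((⌊e⌋₊ : ℕ) : ℤ) = ⌊e⌋ := Int.natCast_floor_eq_floor he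
    rw [hd, h7]
    exact h6
  obtain ⟨n, ⟨i0, j0, ha0⟩, hb0⟩ := nod_lead (F := F) ha hb hs0 hab hδ hse
    (pf_ne (fun m hm => ⟨(hf0 m hm).1, (hf0 m hm).2.1⟩) hne0) (pf_good hδ hf0)
  rw [← ev_hom _ _ d f] at ha0
  have h2 : ((ev (UU (xx F a b s) (yy F a b s)) (hom d f)).coeff n).coeff = 0 := by
    apply hE
    · intro m hm
      have hm' : cf (EV (xx F a b s) (yy F a b s) (pf f)) n m.1 m.2 ≠ 0 := by
        rw [← ev_hom _ _ d f]
        exact Finsupp.mem_support_iff.1 hm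
      obtain ⟨h3, h4, h5⟩ := hb0 m.1 m.2 hm'
      refine ⟨h3, ?_, ?_⟩
      · linarith
      · linarith
    · intro i
      exact LM_transfer (hx i) (hy i) (hU i) hf1 (hLM i) n
  apply ha0
  unfold cf
  rw [h2]
  rfl

end Pool.Agent.TH366.RC
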