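import Pool.Agent.H15.G.R_seed8.TH366.RC.Key
import Pool.Agent.H15.G.R_seed8.TH603.EL.Key
import Pool.Agent.H15.G.R_seed8.TH181.Nag.Tri

/-! Moves between triangles, for a fixed vector of multiplicities. -/

set_option autoImplicit false

namespace Pool.Agent.TH366.RC

open Finset Pool.Agent.TH176.Nag

variable {ι : Type} {w : ι → ℕ} {E : ℝ}

/-- emptiness for all triangles of the shape `(μ, ν)` and twice the area `E ^ 2` -/
def T (w : ι → ℕ) (E μ ν : ℝ) : Prop :=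
  ∀ α : ℝ, Emp w (Reg α (α + E * √(μ + ν)) μ ν)

theorem T.mirror {μ ν : ℝ} (h : T w E ν μ) : T w E μ ν := by
  intro α
  apply Emp_mirror
  have h1 := h (-(α + E * √(μ + ν)))
  rw [add_comm ν μ] at h1
  have e : -(α + E * √(μ + ν)) + E * √(μ + ν) = -α := by ring
  rwa [e] at h1

theorem T.shear {μ ν : ℝ} (k : ℤ) (h : T w E (μ + k) (ν - k)) : T w E μ ν := by
  intro α
  have h1 := h α
  have e : μ + k + (ν - k) = μ + ν := by ring
  rw [e] at h1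
  refine h1.comap 1 k 0 1 0 0 (by norm_num) ?_
  rintro ⟨a, b⟩ ⟨hb, hl, hr⟩
  simp only at hb hl hr
  refine ⟨by simpa using hb, ?_, ?_⟩
  · simp only; push_cast; linarith
  · simp only; push_cast; linarith

/-- flattening, the top vertex takes the largest value -/
theorem T.stepA {μ ν : ℝ} (u v : ℤ) (hc : IsCoprime u v) (hu : 0 ≤ u) (h1 : 0 ≤ u * μ + v)
    (h2 : u * ν ≤ v) (hn : 0 < μ + ν)
    (h : T w E (u * (u * μ + v)) ((v - u * ν) * (u * μ + v) / (μ + ν))) : T w E μ ν := by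
  intro α
  obtain ⟨p, q, hpq⟩ := hc
  have h3 := h (u * α)
  have e1 : u * (u * μ + v) + (v - u * ν) * (u * μ + v) / (μ + ν) = (u * μ + v) ^ 2 / (μ + ν) := by
    field_simp
    ring
  have hs : 0 < √(μ + ν) := Real.sqrt_pos.2 hn
  have hs2 : √(μ + ν) ^ 2 = μ + ν := Real.sq_sqrt hn.le
  have e2 : √(u * (u * μ + v) + (v - u * ν) * (u * μ + v) / (μ + ν)) = (u * μ + v) / √(μ + ν) := by
    rw [e1, Real.sqrt_div (sq_nonneg _), Real.sqrt_sq h1]
  rw [e2] at h3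
  refine Emp_regA u v p q (by linarith) hu (by linarith) h2 hn rfl ?_ rfl ?_ h3
  · have e3 : E * ((u * μ + v) / √(μ + ν)) * (μ + ν) = E * (u * μ + v) * √(μ + ν) := by
      have e4 : E * ((u * μ + v) / √(μ + ν)) * (μ + ν) =
          E * ((u * μ + v) / √(μ + ν)) * √(μ + ν) ^ 2 := by rw [hs2]
      rw [e4]
      field_simp
    linear_combination e3
  · rw [div_mul_cancel₀ _ hn.ne']; ring

/-- flattening, the top vertex takes the middle value -/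
theorem T.stepC {μ ν : ℝ} (u v : ℤ) (hc : IsCoprime u v) (hu : 0 ≤ u) (h1 : 0 ≤ u * μ + v)
    (h2 : v ≤ u * ν)
    (h : T w E (u * (u * μ + v)) (u * (u * ν - v))) : T w E μ ν := by
  intro α
  obtain ⟨p, q, hpq⟩ := hc
  have h3 := h (u * α)
  have hu' : (0 : ℝ) ≤ u := by exact_mod_cast hu
  have e1 : u * (u * μ + v) + u * (u * ν - v) = u ^ 2 * (μ + ν) := by ring
  have e2 : √(u * (u * μ + v) + u * (u * ν - v)) = u * √(μ + ν) := by
    rw [e1, Real.sqrt_mul (sq_nonneg _), Real.sqrt_sq hu']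
  rw [e2] at h3
  refine Emp_regC u v p q (by linarith) hu (by linarith) h2 rfl ?_ rfl rfl h3
  ring

theorem T.inv {n : ℝ} (hn : 0 < n) (h : T w E 0 (1 / n)) : T w E 0 n := by
  refine T.stepA 0 1 isCoprime_one_right le_rfl (by norm_num) (by norm_num) (by linarith) ?_
  have e1 : ((0 : ℤ) : ℝ) * (((0 : ℤ) : ℝ) * 0 + ((1 : ℤ) : ℝ)) = 0 := by push_cast; ring
  have e2 : (((1 : ℤ) : ℝ) - ((0 : ℤ) : ℝ) * n) * (((0 : ℤ) : ℝ) * 0 + ((1 : ℤ) : ℝ)) / (0 + n) = 1 / n := by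
    push_cast; ring
  rw [e1, e2]
  exact h

/-- every shape flattens to a right triangle -/
theorem T.toRT {μ ν : ℝ} (hn : 0 < μ + ν) (h : T w E 0 (μ + ν)) : T w E μ ν := by
  refine T.stepA 0 1 isCoprime_one_right le_rfl (by norm_num) (by norm_num) hn ?_
  have e1 : ((0 : ℤ) : ℝ) * (((0 : ℤ) : ℝ) * μ + ((1 : ℤ) : ℝ)) = 0 := by push_cast; ring
  have e2 : (((1 : ℤ) : ℝ) - ((0 : ℤ) : ℝ) * ν) * (((0 : ℤ) : ℝ) * μ + ((1 : ℤ) : ℝ)) / (μ + ν) =
      1 / (μ + ν) := by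
    push_cast; ring
  rw [e1, e2]
  apply T.inv (by positivity)
  rw [one_div_one_div]
  exact h

theorem T.mul {n : ℝ} (x : ℕ) (hx : 1 ≤ x) (hxn : 1 ≤ x * n) (h : T w E 0 (x ^ 2 * n)) :
    T w E 0 n := by
  rcases Nat.lt_or_ge 1 x with h1 | h1
  · refine T.stepC x 1 isCoprime_one_right (by positivity) (by simp) (by push_cast; linarith) ?_
    refine T.shear (-x) ?_
    have e1 : (((x : ℕ) : ℤ) : ℝ) * ((((x : ℕ) : ℤ) : ℝ) * 0 + ((1 : ℤ) : ℝ)) + ((-(x : ℤ) : ℤ) : ℝ) = 0 := by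
      push_cast; ring
    have e2 : (((x : ℕ) : ℤ) : ℝ) * ((((x : ℕ) : ℤ) : ℝ) * n - ((1 : ℤ) : ℝ)) - ((-(x : ℤ) : ℤ) : ℝ) = x ^ 2 * n := by
      push_cast; ring
    rw [e1, e2]
    exact h
  · have : x = 1 := by omega
    subst this
    simpa using h

/-- the move from a right triangle of width `W` to width `k W + y / W` -/
theorem T.move {n : ℝ} (hn : 0 < n) (k y : ℕ) (hc : IsCoprime (k : ℤ) (y : ℤ)) (hk : 0 < k)
    (h : T w E 0 ((k * n + y) ^ 2 / n)) : T w E 0 n := by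
  apply T.mirror
  refine T.stepA k y hc (by positivity) (by positivity) (by push_cast; simp) (by linarith) ?_
  have e : (((k : ℕ) : ℤ) : ℝ) * ((((k : ℕ) : ℤ) : ℝ) * n + (((y : ℕ) : ℤ) : ℝ)) +
      ((((y : ℕ) : ℤ) : ℝ) - (((k : ℕ) : ℤ) : ℝ) * 0) * ((((k : ℕ) : ℤ) : ℝ) * n + (((y : ℕ) : ℤ) : ℝ)) / (n + 0) =
      (k * n + y) ^ 2 / n := by
    push_cast
    field_simp
    ring
  apply T.toRT
  · rw [e]
    have : (0 : ℝ) < k := by exact_mod_cast hk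
    positivity
  · rw [e]; exact h

/-- a triangle with a suitable real slope flattens to any flatter right triangle -/
theorem T.slant {μ ν ρ : ℝ} (y : ℤ) (hσ : 0 < μ + ν) (hρ : μ + ν ≤ ρ)
    (hy : μ + y = √(ρ * (μ + ν))) (h : T w E 0 ρ) : T w E μ ν := by
  have hρ0 : 0 < ρ := lt_of_lt_of_le hσ hρ
  have h1 : μ + ν ≤ μ + y := by
    rw [hy]
    refine Real.le_sqrt_of_sq_le ?_
    rw [sq]
    exact mul_le_mul_of_nonneg_right hρ hσ.le
  have hy2 : (μ + y) ^ 2 = ρ * (μ + ν) := by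
    rw [hy]; exact Real.sq_sqrt (by positivity)
  refine T.stepA 1 y isCoprime_one_left (by norm_num) (by push_cast; linarith)
    (by push_cast; linarith) hσ ?_
  have e : ((1 : ℤ) : ℝ) * (((1 : ℤ) : ℝ) * μ + (y : ℝ)) + ((y : ℝ) - ((1 : ℤ) : ℝ) * ν) *
      (((1 : ℤ) : ℝ) * μ + (y : ℝ)) / (μ + ν) = ρ := by
    push_cast
    field_simp
    linear_combination hy2
  apply T.toRT
  · rw [e]; exact hρ0
  · rw [e]; exact h

/-- the standard position of a right triangle -/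
theorem T.of_std {ρ : ℝ} (h : Emp w {m : ℤ × ℤ | 0 ≤ m.1 ∧ 0 ≤ m.2 ∧ (m.1 : ℝ) + ρ * m.2 ≤ E * √ρ}) :
    T w E 0 ρ := by
  intro α
  rw [zero_add]
  refine h.comap 1 0 0 1 (-⌈α⌉) 0 (by norm_num) ?_
  rintro ⟨x, y⟩ ⟨hy, hx, hxy⟩
  simp only at hx hy hxy
  have h5 : ⌈α⌉ ≤ x := Int.ceil_le.2 (by linarith)
  have h6 : α ≤ ⌈α⌉ := Int.le_ceil α
  refine ⟨by simp only; omega, by simp only; omega, ?_⟩
  simp only
  push_cast
  linarith

/-- squeezing a right triangle of ratio at least `3 / 2` -/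
theorem T.down {ρ ρ' : ℝ} (hE : 0 < E) (hρ : 3 ≤ 2 * ρ) (h4 : 4 * ρ ≤ ρ') (h : T w E 0 ρ') :
    T w E 0 ρ := by
  have hρ0 : 0 < ρ := by linarith
  obtain ⟨r, hr⟩ : ∃ r, r = √(ρ' * (4 * ρ)) := ⟨_, rfl⟩
  obtain ⟨y, hy⟩ : ∃ y : ℤ, y = ⌈r⌉ - 1 := ⟨_, rfl⟩
  obtain ⟨μ, hμ⟩ : ∃ μ : ℝ, μ = r - y := ⟨_, rfl⟩
  have hμ0 : 0 < μ := by
    rw [hμ, hy]
    push_cast
    linarith [Int.ceil_lt_add_one r]
  have hμ1 : μ ≤ 1 := by
    rw [hμ, hy]
    push_cast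
    linarith [Int.le_ceil r]
  have h1 : T w E μ (4 * ρ - μ) := by
    refine T.slant y (by linarith) (by linarith) ?_ h
    have e : μ + (4 * ρ - μ) = 4 * ρ := by ring
    rw [e, ← hr, hμ]
    ring
  apply T.of_std
  have hs : 0 < √ρ := Real.sqrt_pos.2 hρ0
  have h2 := Emp_nodal (w := w) (δ := ρ) (e := E * √ρ) hρ (by positivity) (a := μ / (4 * ρ))
    (b := (4 * ρ - μ) / (4 * ρ)) (by positivity) (div_pos (by linarith) (by positivity))
    (by field_simp; ring) (by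
      rw [Ne, div_left_inj' (by positivity)]
      intro h0
      linarith) (by
      have h3 := h1 (-(2 * (μ / (4 * ρ)) * (E * √ρ)))
      have e : μ + (4 * ρ - μ) = 4 * ρ := by ring
      have e4 : √(4 * ρ) = 2 * √ρ := by
        rw [Real.sqrt_mul (by norm_num)]
        have : √(4 : ℝ) = 2 := by
          rw [show (4 : ℝ) = 2 ^ 2 by norm_num]
          exact Real.sqrt_sq (by norm_num)
        rw [this]
      rw [e, e4] at h3
      have e5 : -(2 * (μ / (4 * ρ)) * (E * √ρ)) + E * (2 * √ρ) =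
          2 * ((4 * ρ - μ) / (4 * ρ)) * (E * √ρ) := by
        field_simp
        ring
      have e6 : 4 * ρ * (μ / (4 * ρ)) = μ := by field_simp
      have e7 : 4 * ρ * ((4 * ρ - μ) / (4 * ρ)) = 4 * ρ - μ := by field_simp
      rw [e6, e7, ← e5]
      exact h3)
  exact h2

/-- squeezing the triangle of the plane -/
theorem T.plane {ρ : ℝ} (hE : 0 < E) (h9 : 9 ≤ ρ) (h : T w E 0 ρ) : T w E 0 1 := by
  obtain ⟨r, hr⟩ : ∃ r, r = √(ρ * 9) := ⟨_, rfl⟩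
  obtain ⟨y, hy⟩ : ∃ y : ℤ, y = ⌈r - 5⌉ := ⟨_, rfl⟩
  obtain ⟨τ, hτ⟩ : ∃ τ : ℝ, τ = (r - y) / 3 - 1 := ⟨_, rfl⟩
  have h1 : (y : ℝ) < r - 4 := by
    rw [hy]
    linarith [Int.ceil_lt_add_one (r - 5)]
  have h2 : r - 5 ≤ y := by
    rw [hy]
    exact Int.le_ceil _
  have hτ0 : 0 < τ := by rw [hτ]; linarith
  have hτ1 : τ < 1 := by rw [hτ]; linarith
  have e9 : 3 * (1 + τ) + 3 * (2 - τ) = 9 := by ring
  have h3 : T w E (3 * (1 + τ)) (3 * (2 - τ)) := by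
    refine T.slant y (by rw [e9]; norm_num) (by rw [e9]; exact h9) ?_ h
    rw [e9, ← hr, hτ]
    ring
  obtain ⟨d, hd⟩ : ∃ d : ℕ, d = ⌊E⌋₊ := ⟨_, rfl⟩
  have hdE : (d : ℝ) ≤ E := by rw [hd]; exact Nat.floor_le hE.le
  have h4 := h3 (-((d : ℝ) * (1 + τ)))
  rw [e9] at h4
  have e3 : √(9 : ℝ) = 3 := by
    rw [show (9 : ℝ) = 3 ^ 2 by norm_num]
    exact Real.sqrt_sq (by norm_num)
  rw [e3] at h4
  have h5 := Pool.Agent.TH603.EL.Emp_key (w := w) (d := d) hτ0 hτ1 (h4.mono (by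
    rintro m ⟨k1, k2, k3⟩
    refine ⟨k1, k2, k3.trans ?_⟩
    linarith))
  apply T.of_std
  refine h5.mono ?_
  rintro ⟨a, b⟩ ⟨k1, k2, k3⟩
  simp only at k1 k2 k3
  refine ⟨k1, k2, ?_⟩
  simp only
  rw [Real.sqrt_one, mul_one, one_mul] at k3
  have h6 : ((a + b : ℤ) : ℝ) ≤ E := by push_cast; exact k3
  have h7 : a + b ≤ ⌊E⌋ := Int.le_floor.2 h6
  have h8 : ((⌊E⌋₊ : ℕ) : ℤ) = ⌊E⌋ := Int.natCast_floor_eq_floor hE.le
  rw [hd, h8]
  exact h7

end Pool.Agent.TH366.RC
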